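import Pool.Agent.Helper8.KT.Sheet

/-! Row MC: McShane extensions from Katetov functions (spare copy). -/

set_option autoImplicit false

namespace Pool.Agent.Helper73.KT

open Pool.Agent.Helper8.KT

/-- the values of the extension -/
def SS (d : ℕ → ℕ → ℝ) (D : ℝ) (n : ℕ) (G : (ℕ → ℝ) → ℝ) (y : ℕ → ℝ) : Set ℝ :=
  {v | ∃ (η : ℕ → ℝ) (r : ℝ), Kat d η ∧ (∃ j ≤ n, η j ≤ D) ∧ (∀ j ≤ n, |y j - η j| ≤ r) ∧
    v = G η + r}

theorem ss_ne (d : ℕ → ℕ → ℝ) (hd : Met d) (D : ℝ) (hD : 0 ≤ D) (n : ℕ) (G : (ℕ → ℝ) → ℝ)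
    (y : ℕ → ℝ) : (SS d D n G y).Nonempty := by
  refine ⟨_, d 0, ∑ j ∈ Finset.range (n + 1), |y j - d 0 j|, ?_, ⟨0, Nat.zero_le _, ?_⟩, ?_, rfl⟩
  · intro i j
    have h1 := hd.tri 0 i j
    have h2 := hd.tri 0 j i
    have h3 := hd.tri i 0 j
    have h4 := hd.symm i 0
    have h5 := hd.symm j i
    refine ⟨abs_le.2 ⟨by linarith, by linarith⟩, by linarith⟩
  · rw [hd.self]; exact hD
  · intro j hj
    exact Finset.single_le_sum (f := fun j => |y j - d 0 j|) (fun _ _ => abs_nonneg _)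
      (Finset.mem_range.2 (by omega))

theorem ss_bd (d : ℕ → ℕ → ℝ) (D : ℝ) (n : ℕ) (G : (ℕ → ℝ) → ℝ) (hG : Lip1 n G)
    (y : ℕ → ℝ) : ∀ v ∈ SS d D n G y, G y ≤ v := by
  rintro v ⟨η, r, -, -, h, rfl⟩
  have := (abs_le.1 (hG y η r h)).2
  linarith

theorem stMC (h1 : ST_AP) : ST_MC := by
  intro d hd f D hD n G hG hlow
  have hbd : ∀ y, BddBelow (SS d D n G y) := fun y => ⟨G y, fun v hv => ss_bd d D n G hG y v hv⟩
  have hne := ss_ne d hd D hD n G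
  have hstep : ∀ (y y' : ℕ → ℝ) (r : ℝ), (∀ j ≤ n, |y j - y' j| ≤ r) →
      sInf (SS d D n G y') ≤ sInf (SS d D n G y) + r := by
    intro y y' r hr
    rw [← sub_le_iff_le_add]
    apply le_csInf (hne y)
    rintro v ⟨η, s, hη, hj, h, rfl⟩
    rw [sub_le_iff_le_add]
    apply csInf_le (hbd y')
    refine ⟨η, s + r, hη, hj, ?_, by ring⟩
    intro j hjn
    have e1 := abs_le.1 (h j hjn)
    have e2 := abs_le.1 (hr j hjn)
    exact abs_le.2 ⟨by linarith, by linarith⟩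
  refine ⟨fun y => sInf (SS d D n G y), ?_, ?_, ?_⟩
  · intro y y' r hr
    have h2 := hstep y y' r hr
    have h3 := hstep y' y r (fun j hj => by rw [abs_sub_comm]; exact hr j hj)
    exact abs_le.2 ⟨by linarith, by linarith⟩
  · intro y hy hj
    apply le_antisymm
    · apply csInf_le (hbd y)
      exact ⟨y, 0, hy, hj, fun j _ => by simp, by ring⟩
    · exact le_csInf (hne y) (ss_bd d D n G hG y)
  · intro y hy j
    apply le_csInf (hne y)
    rintro v ⟨η, r, hη, ⟨i, hi, hiD⟩, h, rfl⟩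
    obtain ⟨w, hw, hwe, hwr⟩ := h1 d hd n y η r hy hη h
    have e1 := hlow w hw ⟨i, hi, by rw [hwe i hi]; exact hiD⟩ j
    have e2 := abs_le.1 (hG w η 0 (fun k hk => by rw [hwe k hk]; simp))
    have e3 := abs_le.1 (hwr j)
    linarith

end Pool.Agent.Helper73.KT
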